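import Mathlib

/-!
# MP_b5e4d4_co: an explicit formula for the number of labeled self-converse digraphs

`selfConverse p` is the number of labeled self-converse digraphs on `Fin p`.  The formula is a
finite sum over the nonempty sets `A` of divisors of `p!` and over the `|A|`-tuples of permutations
of the `p` points; the summand of a tuple `σ` is `2 ^ orb σ`, where `orb σ` is the number of classes
into which the ordered pairs of distinct points are divided when `(u, v)` is identified with
`(σ i v, σ i u)` for every `i`.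
-/

set_option autoImplicit false

open Finset

namespace Pool.Agent.Results.MP_b5e4d4_co.SelfConverseFormula

/-- Labeled digraphs on the points `0, …, p-1` (no loops, no multiple arcs); `D.1 u v` says that
`(u, v)` is an arc. -/
def LDigraph (p : ℕ) : Type := {R : Fin p → Fin p → Prop // ∀ i, ¬ R i i}

/-- The number `s(p)` of labeled self-converse digraphs of order `p`. -/
noncomputable def selfConverse (p : ℕ) : ℕ := Nat.card {D : LDigraph p //
  ∃ σ : Equiv.Perm (Fin p), ∀ u v, D.1 u v ↔ D.1 (σ v) (σ u)}

/-- The ordered pairs of distinct points. -/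
def Pairs (p : ℕ) : Type := {e : Fin p × Fin p // e.1 ≠ e.2}

instance (p : ℕ) : Fintype (Pairs p) := by unfold Pairs; infer_instance
instance (p : ℕ) : DecidableEq (Pairs p) := by unfold Pairs; infer_instance

/-- The pair `(u, v)` is sent to `(σ v, σ u)`. -/
def turn {p : ℕ} (σ : Equiv.Perm (Fin p)) (e : Pairs p) : Pairs p :=
  ⟨(σ e.1.2, σ e.1.1), fun h => e.2 (σ.injective h).symm⟩

/-- One step: `e'` is obtained from `e = (u, v)` as `(σ i v, σ i u)` for some `i`. -/
def Step {p k : ℕ} (σ : Fin k → Equiv.Perm (Fin p)) (e e' : Pairs p) : Prop :=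
  ∃ i, e' = turn (σ i) e

/-- The number of classes of ordered pairs of distinct points for the equivalence relation
generated by `(u, v) ~ (σ i v, σ i u)`. -/
noncomputable def orb {p k : ℕ} (σ : Fin k → Equiv.Perm (Fin p)) : ℕ :=
  Nat.card (Quot (Step σ))

variable {p : ℕ}

/-- the anti-automorphisms of a two-colouring of the pairs -/
def Anti (c : Pairs p → Bool) : Type := {g : Equiv.Perm (Fin p) // ∀ e, c (turn g e) = c e}

theorem anti_finite (c : Pairs p → Bool) : Finite (Anti c) := by
  unfold Anti; infer_instance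

/-- the stabiliser of a two-colouring of the pairs -/
def stab (c : Pairs p → Bool) : Subgroup (Equiv.Perm (Fin p)) where
  carrier := {g | ∀ e : Pairs p, c ⟨(g e.1.1, g e.1.2), fun h => e.2 (g.injective h)⟩ = c e}
  mul_mem' := by
    intro a b ha hb e
    have h1 := ha ⟨(b e.1.1, b e.1.2), fun h => e.2 (b.injective h)⟩
    have h2 := hb e
    exact h1.trans h2
  one_mem' := by intro e; rfl
  inv_mem' := by
    intro a ha e
    have := ha ⟨(a⁻¹ e.1.1, a⁻¹ e.1.2), fun h => e.2 (a⁻¹.injective h)⟩
    have e1 : ∀ x, a (a⁻¹ x) = x := fun x => a.apply_symm_apply x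
    simp only [e1] at this
    exact this.symm

theorem card_anti (c : Pairs p → Bool) :
    Nat.card (Anti c) = 0 ∨ Nat.card (Anti c) ∈ (p.factorial).divisors := by
  classical
  by_cases h : Nonempty (Anti c)
  · right
    obtain ⟨g0⟩ := h
    have hg0 := g0.2
    have e : Anti c ≃ stab c :=
      { toFun := fun g => ⟨g0.1⁻¹ * g.1, by
          intro e
          have h3 := g0.2 ⟨(g0.1⁻¹ (g.1 e.1.1), g0.1⁻¹ (g.1 e.1.2)),
            fun h => e.2 (g.1.injective (g0.1⁻¹.injective h))⟩
          have h4 := g.2 e
          have e1 : ∀ x, g0.1 (g0.1⁻¹ x) = x := fun x => g0.1.apply_symm_apply x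
          simp only [turn, e1] at h3 h4
          simp only [Equiv.Perm.mul_apply]
          rw [← h3]
          exact h4⟩
        invFun := fun h => ⟨g0.1 * h.1, by
          intro e
          have h1 := h.2 e
          have h2 := g0.2 ⟨(h.1 e.1.1, h.1 e.1.2), fun hh => e.2 (h.1.injective hh)⟩
          simp only [turn] at h2
          simp only [turn, Equiv.Perm.mul_apply]
          rw [h2]
          exact h1⟩
        left_inv := by intro g; apply Subtype.ext; simp
        right_inv := by intro g; apply Subtype.ext; simp }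
    rw [Nat.card_congr e, Nat.mem_divisors]
    refine ⟨?_, (Nat.factorial_pos p).ne'⟩
    have h1 := Subgroup.card_subgroup_dvd_card (stab c)
    rwa [Nat.card_eq_fintype_card (α := Equiv.Perm (Fin p)), Fintype.card_perm,
      Fintype.card_fin] at h1
  · left
    rw [Nat.card_eq_zero]
    left
    exact not_nonempty_iff.mp h

/-- the colourings invariant under all the `turn (σ i)` -/
theorem card_inv {k : ℕ} (σ : Fin k → Equiv.Perm (Fin p)) :
    Nat.card {c : Pairs p → Bool // ∀ i e, c (turn (σ i) e) = c e} = 2 ^ orb σ := by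
  classical
  have e : {c : Pairs p → Bool // ∀ i e, c (turn (σ i) e) = c e} ≃ (Quot (Step σ) → Bool) :=
    { toFun := fun c => Quot.lift c.1 (by
        rintro x y ⟨i, rfl⟩
        exact (c.2 i x).symm)
      invFun := fun f => ⟨fun e => f (Quot.mk _ e), by
        intro i e
        have : Quot.mk (Step σ) (turn (σ i) e) = Quot.mk (Step σ) e := (Quot.sound ⟨i, rfl⟩).symm
        simp only [this]⟩
      left_inv := by intro c; rfl
      right_inv := by
        intro f
        funext q
        induction q using Quot.ind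
        rfl }
  have : Finite (Quot (Step σ)) := Quot.finite _
  rw [Nat.card_congr e, Nat.card_fun]
  simp [orb]

theorem sum_pow (k : ℕ) :
    ∑ c : Pairs p → Bool, (Nat.card (Anti c)) ^ k
      = ∑ σ : Fin k → Equiv.Perm (Fin p), 2 ^ orb σ := by
  classical
  have h1 : ∀ c : Pairs p → Bool, (Nat.card (Anti c)) ^ k =
      ∑ σ : Fin k → Equiv.Perm (Fin p), if (∀ i e, c (turn (σ i) e) = c e) then 1 else 0 := by
    intro c
    have e : (Fin k → Anti c) ≃
        {σ : Fin k → Equiv.Perm (Fin p) // ∀ i e, c (turn (σ i) e) = c e} :=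
      { toFun := fun f => ⟨fun i => (f i).1, fun i => (f i).2⟩
        invFun := fun σ i => ⟨σ.1 i, σ.2 i⟩
        left_inv := fun f => rfl
        right_inv := fun f => rfl }
    have h2 : Nat.card (Fin k → Anti c) = (Nat.card (Anti c)) ^ k := by
      rw [Nat.card_fun]; simp
    rw [← h2, Nat.card_congr e, Nat.card_eq_fintype_card, Fintype.card_subtype, Finset.card_filter]
  simp_rw [h1]
  rw [Finset.sum_comm]
  apply Finset.sum_congr rfl
  intro σ _
  rw [← card_inv σ]
  rw [Nat.card_eq_fintype_card, Fintype.card_subtype, Finset.card_filter]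

/-- the formula, for two-colourings of the pairs -/
theorem main (p : ℕ) :
    (Nat.card {c : Pairs p → Bool // ∃ g : Equiv.Perm (Fin p), ∀ e, c (turn g e) = c e} : ℚ) =
      ∑ A ∈ (p.factorial).divisors.powerset.erase ∅,
        ((-1) ^ (A.card + 1) / ∏ d ∈ A, (d : ℚ)) *
          ∑ σ : Fin A.card → Equiv.Perm (Fin p), (2 : ℚ) ^ orb σ := by
  classical
  have h0 : ∀ c : Pairs p → Bool,
      (if (∃ g : Equiv.Perm (Fin p), ∀ e, c (turn g e) = c e) then (1 : ℚ) else 0) =
      ∑ A ∈ (p.factorial).divisors.powerset.erase ∅,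
        ((-1) ^ (A.card + 1) / ∏ d ∈ A, (d : ℚ)) * (Nat.card (Anti c) : ℚ) ^ A.card := by
    intro c
    set N : ℚ := (Nat.card (Anti c) : ℚ) with hN
    have hprod : ∏ d ∈ (p.factorial).divisors, (1 - N / (d : ℚ)) =
        ∑ A ∈ (p.factorial).divisors.powerset, ((-1) ^ A.card / ∏ d ∈ A, (d : ℚ)) * N ^ A.card := by
      rw [Finset.prod_sub]
      apply Finset.sum_congr rfl
      intro A _
      rw [Finset.prod_const_one, Finset.prod_div_distrib, Finset.prod_const]
      ring
    have hsum : ∑ A ∈ (p.factorial).divisors.powerset.erase ∅,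
        ((-1) ^ (A.card + 1) / ∏ d ∈ A, (d : ℚ)) * N ^ A.card =
        1 - ∏ d ∈ (p.factorial).divisors, (1 - N / (d : ℚ)) := by
      rw [hprod, ← Finset.add_sum_erase _ _ (Finset.empty_mem_powerset _)]
      simp only [Finset.card_empty, pow_zero, Finset.prod_empty, div_one, mul_one]
      rw [sub_add_eq_sub_sub, sub_self, zero_sub, ← Finset.sum_neg_distrib]
      apply Finset.sum_congr rfl
      intro A _
      rw [pow_succ]
      ring
    rw [hsum]
    rcases card_anti c with hz | hd
    · have hne : ¬ ∃ g : Equiv.Perm (Fin p), ∀ e, c (turn g e) = c e := by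
        rintro ⟨g, hg⟩
        rw [Nat.card_eq_zero] at hz
        rcases hz with hz | hz
        · exact hz.false ⟨g, hg⟩
        · have : Finite (Anti c) := anti_finite c
          exact not_finite (Anti c)
      have hN0 : N = 0 := by rw [hN, hz]; simp
      rw [if_neg hne, hN0]
      simp
    · have hpos : Nat.card (Anti c) ≠ 0 := (Nat.pos_of_mem_divisors hd).ne'
      have hex : ∃ g : Equiv.Perm (Fin p), ∀ e, c (turn g e) = c e := by
        have : Nonempty (Anti c) := by
          by_contra hne
          apply hpos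
          rw [Nat.card_eq_zero]
          left
          exact not_nonempty_iff.mp hne
        obtain ⟨g⟩ := this
        exact ⟨g.1, g.2⟩
      rw [if_pos hex, Finset.prod_eq_zero hd]
      · simp
      · rw [hN, div_self (by exact_mod_cast hpos), sub_self]
  have h1 : (Nat.card {c : Pairs p → Bool //
      ∃ g : Equiv.Perm (Fin p), ∀ e, c (turn g e) = c e} : ℚ) =
      ∑ c : Pairs p → Bool,
        (if (∃ g : Equiv.Perm (Fin p), ∀ e, c (turn g e) = c e) then (1 : ℚ) else 0) := by
    rw [Nat.card_eq_fintype_card, Fintype.card_subtype, Finset.card_filter]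
    push_cast
    rfl
  rw [h1]
  simp_rw [h0]
  rw [Finset.sum_comm]
  apply Finset.sum_congr rfl
  intro A _
  rw [← Finset.mul_sum]
  congr 1
  have := sum_pow (p := p) A.card
  exact_mod_cast this

open Classical in
/-- a digraph as a two-colouring of the ordered pairs -/
noncomputable def eD (p : ℕ) : LDigraph p ≃ (Pairs p → Bool) where
  toFun := fun D e => decide (D.1 e.1.1 e.1.2)
  invFun := fun c => ⟨fun i j => ∃ h : i ≠ j, c ⟨(i, j), h⟩ = true, fun i h => h.1 rfl⟩
  left_inv := by
    intro D
    apply Subtype.ext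
    funext i j
    apply propext
    constructor
    · rintro ⟨h, hc⟩
      simpa using hc
    · intro h
      exact ⟨fun hij => D.2 i (by rw [← hij] at h; exact h), by simpa using h⟩
  right_inv := by
    intro c
    funext e
    obtain ⟨⟨a, b⟩, he⟩ := e
    rcases hc : c ⟨(a, b), he⟩ with _ | _
    · simp [hc]
    · have : a ≠ b := he
      simp [hc, this]

theorem selfConverse_card (p : ℕ) :
    selfConverse p =
      Nat.card {c : Pairs p → Bool // ∃ g : Equiv.Perm (Fin p), ∀ e, c (turn g e) = c e} := by
  classical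
  unfold selfConverse
  refine Nat.card_congr (Equiv.subtypeEquiv (eD p) ?_)
  intro D
  have key : ∀ (g : Equiv.Perm (Fin p)) (a b : Fin p) (hab : a ≠ b),
      (eD p D (turn g (⟨(a, b), hab⟩ : Pairs p)) = (eD p D ⟨(a, b), hab⟩)) ↔
        (D.1 a b ↔ D.1 (g b) (g a)) := by
    intro g a b hab
    have h1 : eD p D (turn g (⟨(a, b), hab⟩ : Pairs p)) = decide (D.1 (g b) (g a)) := rfl
    have h2 : eD p D ⟨(a, b), hab⟩ = decide (D.1 a b) := rfl
    rw [h1, h2]
    by_cases h3 : D.1 (g b) (g a) <;> by_cases h4 : D.1 a b <;> simp [h3, h4]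
  constructor
  · rintro ⟨g, hg⟩
    refine ⟨g, ?_⟩
    rintro ⟨⟨a, b⟩, hab⟩
    rw [key g a b hab]
    exact hg a b
  · rintro ⟨g, hg⟩
    refine ⟨g, ?_⟩
    intro a b
    by_cases hab : a = b
    · subst hab
      exact ⟨fun h => absurd h (D.2 a), fun h => absurd h (D.2 _)⟩
    · exact (key g a b hab).mp (hg _)

/-- **Explicit formula** for the number `s(p)` of labeled self-converse digraphs of order `p`:
`s(p) = ∑_A (-1)^(|A|+1) / (∏_{d ∈ A} d) * ∑_σ 2 ^ orb σ`, where `A` runs over the nonempty sets of
divisors of `p!` and `σ` over the `|A|`-tuples of permutations of the `p` points. -/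
theorem result (p : ℕ) :
    (selfConverse p : ℚ) = ∑ A ∈ (p.factorial).divisors.powerset.erase ∅,
      ((-1) ^ (A.card + 1) / ∏ d ∈ A, (d : ℚ)) *
        ∑ σ : Fin A.card → Equiv.Perm (Fin p), (2 : ℚ) ^ orb σ := by
  rw [selfConverse_card]
  exact main p

end Pool.Agent.Results.MP_b5e4d4_co.SelfConverseFormula
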